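import Pool.Agent.H70.Rist

namespace Pool.Agent.Results.MP_ded1c1b5_al.Counterexample

open Pool.Agent.H70.Rist

theorem result :
    (∀ v w : List Bool, v.length = w.length → ∃ g : U, g.1 v = w) ∧
    (∀ m, (ristL m).FiniteIndex) ∧
    (∃ A : Subgroup U, IsOpen (A : Set U) ∧ Nonempty (A ≃ₜ* (Fin 3 → U))) ∧
    ∀ (m : ℕ) (K : Subgroup U), IsEmpty (ristL m ≃* (Fin 3 → K)) :=
  ⟨fun _ _ h => trans h, fin, comm, fun m K => ⟨no_iso m K⟩⟩

end Pool.Agent.Results.MP_ded1c1b5_al.Counterexample
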